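import Pool.Agent.Helper623.TB.General
set_option autoImplicit false
open scoped Topology
open Filter

namespace Pool.Agent.Helper623.TB.Gen

variable {E : Type} [NormedAddCommGroup E] [NormedSpace ℝ E]
variable {T : ℕ → ℕ → ℝ} {x : ℕ → E}

/-- A summable family `t` and commuting projections `s j` (partial sums of a biorthogonal
expansion), with uniformly bounded partial sums `F J = ∑_{j<J} t j • s j` tending strongly to `S`:
then `(S - F J)^2` is small in norm. -/
lemma sq_small (t : ℕ → ℝ) (s : ℕ → E →L[ℝ] E) (hs : ∀ i j, (s i).comp (s j) = s (min i j))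
    (S : E →L[ℝ] E) (B : ℝ)
    (hB : ∀ J, ‖∑ j ∈ Finset.range J, t j • s j‖ ≤ B)
    (hS : ∀ y, Tendsto (fun J => (∑ j ∈ Finset.range J, t j • s j) y) atTop (𝓝 (S y)))
    (ht : Summable (fun j => |t j|)) (J : ℕ) :
    ‖(S - ∑ j ∈ Finset.range J, t j • s j).comp (S - ∑ j ∈ Finset.range J, t j • s j)‖ ≤
      4 * B * ∑' j, |t (j + J)| := by
  set F : ℕ → E →L[ℝ] E := fun J => ∑ j ∈ Finset.range J, t j • s j with hF
  have hB0 : 0 ≤ B := (norm_nonneg _).trans (hB 0)
  -- increments
  have hFs : ∀ L, F (L + 1) = F L + t L • s L := fun L => Finset.sum_range_succ _ _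
  set D : ℕ → E →L[ℝ] E := fun L => F (J + L) - F J with hD
  have hD0 : D 0 = 0 := by simp [hD]
  have hDs : ∀ L, D (L + 1) = D L + t (J + L) • s (J + L) := by
    intro L
    show F (J + L + 1) - F J = _
    rw [hFs]
    simp only [hD]
    abel
  have hleft : ∀ L M, J + L ≤ M → (s M).comp (D L) = D L := by
    intro L
    induction L with
    | zero => intro M _; rw [hD0]; simp
    | succ L ih =>
      intro M hM
      rw [hDs, ContinuousLinearMap.comp_add, ih M (by omega), ContinuousLinearMap.comp_smul, hs,
        min_eq_right (by omega)]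
  have hright : ∀ L M, J + L ≤ M → (D L).comp (s M) = D L := by
    intro L
    induction L with
    | zero => intro M _; rw [hD0]; simp
    | succ L ih =>
      intro M hM
      rw [hDs, ContinuousLinearMap.add_comp, ih M (by omega), ContinuousLinearMap.smul_comp, hs,
        min_eq_left (by omega)]
  have hDD : ∀ L, (D L).comp (D L) = ∑ l ∈ Finset.range L, t (J + l) • (D l + D (l + 1)) := by
    intro L
    induction L with
    | zero => rw [hD0]; simp
    | succ L ih =>
      rw [Finset.sum_range_succ, ← ih]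
      conv_lhs => rw [hDs]
      rw [ContinuousLinearMap.add_comp, ContinuousLinearMap.comp_add, ContinuousLinearMap.comp_add,
        ContinuousLinearMap.comp_smul, ContinuousLinearMap.smul_comp,
        ContinuousLinearMap.smul_comp, ContinuousLinearMap.comp_smul, hright L _ le_rfl,
        hleft L _ le_rfl, hs, min_self, hDs]
      module
  have hDn : ∀ L, ‖D L‖ ≤ 2 * B := by
    intro L
    have := norm_sub_le (F (J + L)) (F J)
    have h1 := hB (J + L)
    have h2 := hB J
    simp only [hD]
    linarith
  have hsum : ∀ L, ∑ l ∈ Finset.range L, |t (J + l)| ≤ ∑' j, |t (j + J)| := by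
    intro L
    have h1 : Summable (fun j => |t (j + J)|) := (summable_nat_add_iff J).mpr ht
    have h2 := h1.sum_le_tsum (Finset.range L) (fun i _ => abs_nonneg _)
    refine le_trans (le_of_eq (Finset.sum_congr rfl (fun l _ => by rw [add_comm]))) h2
  have hDDn : ∀ L, ‖(D L).comp (D L)‖ ≤ 4 * B * ∑' j, |t (j + J)| := by
    intro L
    rw [hDD]
    refine (norm_sum_le _ _).trans ?_
    have h1 : ∀ l ∈ Finset.range L, ‖t (J + l) • (D l + D (l + 1))‖ ≤ |t (J + l)| * (4 * B) := by
      intro l _
      rw [norm_smul, Real.norm_eq_abs]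
      refine mul_le_mul_of_nonneg_left ?_ (abs_nonneg _)
      have := norm_add_le (D l) (D (l + 1))
      have h1 := hDn l
      have h2 := hDn (l + 1)
      linarith
    refine (Finset.sum_le_sum h1).trans ?_
    rw [← Finset.sum_mul, mul_comm]
    exact mul_le_mul_of_nonneg_left (hsum L) (by positivity)
  -- strong limit
  have hDlim : ∀ y, Tendsto (fun L => D L y) atTop (𝓝 ((S - F J) y)) := by
    intro y
    have h1 : Tendsto (fun L => F (J + L) y) atTop (𝓝 (S y)) := by
      have := (hS y).comp (tendsto_add_atTop_nat J)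
      refine this.congr (fun L => ?_)
      simp only [Function.comp, hF]
      rw [add_comm L J]
    exact h1.sub_const _
  refine ContinuousLinearMap.opNorm_le_bound _ ?_ (fun y => ?_)
  · exact mul_nonneg (by positivity) (tsum_nonneg (fun _ => abs_nonneg _))
  · -- D L (D L y) → R (R y)
    have h2 : Tendsto (fun L => D L (D L y)) atTop (𝓝 ((S - F J) ((S - F J) y))) := by
      have h3 : Tendsto (fun L => D L ((S - F J) y) + D L (D L y - (S - F J) y)) atTop
          (𝓝 ((S - F J) ((S - F J) y) + 0)) := by
        refine (hDlim _).add ?_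
        refine squeeze_zero_norm (fun L => (D L).le_of_opNorm_le (hDn L) _) ?_
        have h4 : Tendsto (fun L => ‖D L y - (S - F J) y‖) atTop (𝓝 0) :=
          tendsto_iff_norm_sub_tendsto_zero.mp (hDlim y)
        simpa using h4.const_mul (2 * B)
      rw [add_zero] at h3
      refine h3.congr (fun L => ?_)
      rw [← map_add]
      congr 1
      abel
    refine le_of_tendsto h2.norm (Eventually.of_forall (fun L => ?_))
    exact ((D L).comp (D L)).le_of_opNorm_le (hDDn L) y

/-- **Every Banach space with a `T`-basis (for any consistent `T`) has the bounded approximation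
property.** -/
theorem bap_of_tbasis [CompleteSpace E] (hT : IsConsistent T) (hx : IsTBasis T x) : BAP E := by
  obtain ⟨⟨C, hC⟩, hpn⟩ := bounds hT hx
  choose Cn hCn using hpn
  -- coordinate functionals are bounded
  have hco : ∀ i, ∃ K : ℝ, ∀ y, ‖co hx y i‖ ≤ K * ‖y‖ := by
    intro i
    obtain ⟨n, K, hK0, hK⟩ := co_le hT hx i
    refine ⟨K * Cn n, fun y => ?_⟩
    rw [mul_assoc]
    exact (hK y).trans (mul_le_mul_of_nonneg_left (hCn n y) hK0)
  choose K hK using hco
  let f : ℕ → E →L[ℝ] ℝ := fun i => LinearMap.mkContinuous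
    { toFun := fun y => co hx y i
      map_add' := fun y z => by rw [co_add]; rfl
      map_smul' := fun c y => by rw [co_smul]; rfl } (K i) (hK i)
  have hf : ∀ i y, f i y = co hx y i := fun i y => rfl
  let s : ℕ → E →L[ℝ] E := fun j => ∑ i ∈ Finset.range (j + 1), (f i).smulRight (x i)
  have hs_apply : ∀ j y, s j y = ps x (co hx y) j := by
    intro j y
    simp only [s, ps, sum_apply, ContinuousLinearMap.smulRight_apply, hf]
  have hs : ∀ i j, (s i).comp (s j) = s (min i j) := by
    intro i j
    ext y
    rw [ContinuousLinearMap.comp_apply, hs_apply, hs_apply, hs_apply]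
    classical
    set α : ℕ → ℝ := fun l => if l ≤ j then co hx y l else 0 with hα
    have h1 : ps x (co hx y) j = ps x α j := by
      unfold ps
      refine Finset.sum_congr rfl (fun l hl => ?_)
      have : l ≤ j := by simp at hl; omega
      simp [hα, this]
    rw [h1, co_fin hT hx α j (fun l hl => by simp [hα]; omega)]
    unfold ps
    rcases le_total i j with h | h
    · rw [min_eq_left h]
      refine Finset.sum_congr rfl (fun l hl => ?_)
      have : l ≤ j := by simp at hl; omega
      simp [hα, this]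
    · rw [min_eq_right h]
      have h2 : ∀ l ∈ Finset.range (j + 1), co hx y l • x l = α l • x l := by
        intro l hl
        have : l ≤ j := by simp at hl; omega
        simp [hα, this]
      rw [Finset.sum_congr rfl h2]
      symm
      refine Finset.sum_subset (by intro a ha; simp at ha ⊢; omega) (fun l _ hl => ?_)
      have : ¬ l ≤ j := by simp at hl; omega
      simp [hα, this]
  have hFF : ∀ n J y, (∑ j ∈ Finset.range J, T n j • s j) y = FF T x n J (co hx y) := by
    intro n J y
    unfold FF
    simp only [sum_apply, smul_apply, hs_apply]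
  let S : ℕ → E →L[ℝ] E := fun n => LinearMap.mkContinuous
    { toFun := fun y => sg hx y n
      map_add' := fun y z => sg_add hx y z n
      map_smul' := fun c y => sg_smul hx c y n } C (fun y => (le_pinf hx y n).trans (hC y))
  have hS : ∀ n y, S n y = sg hx y n := fun n y => rfl
  have hC0 : 0 ≤ |C| := abs_nonneg C
  have hSn : ∀ n, ‖S n‖ ≤ |C| := by
    intro n
    refine ContinuousLinearMap.opNorm_le_bound _ hC0 (fun y => ?_)
    exact ((le_pinf hx y n).trans (hC y)).trans
      (mul_le_mul_of_nonneg_right (le_abs_self C) (norm_nonneg y))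
  have hFn : ∀ n J, ‖∑ j ∈ Finset.range J, T n j • s j‖ ≤ |Cn n| := by
    intro n J
    refine ContinuousLinearMap.opNorm_le_bound _ (abs_nonneg _) (fun y => ?_)
    rw [hFF]
    exact ((le_pn hx n y J).trans (hCn n y)).trans
      (mul_le_mul_of_nonneg_right (le_abs_self _) (norm_nonneg y))
  obtain ⟨M, hM⟩ := hT.bounded
  have hsq : ∀ n J, ‖(S n - ∑ j ∈ Finset.range J, T n j • s j).comp
      (S n - ∑ j ∈ Finset.range J, T n j • s j)‖ ≤ 4 * |Cn n| * ∑' j, |T n (j + J)| := by
    intro n J
    refine sq_small (T n) s hs (S n) (|Cn n|) (hFn n) (fun y => ?_) (hM n).1 J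
    simp_rw [hFF]
    exact sg_mean hx y n
  have hchoose : ∀ n : ℕ, ∃ J, 4 * |Cn n| * ∑' j, |T n (j + J)| ≤ 1 / ((n : ℝ) + 1) := by
    intro n
    have h1 : Tendsto (fun J => 4 * |Cn n| * ∑' j, |T n (j + J)|) atTop (𝓝 (4 * |Cn n| * 0)) :=
      (tendsto_sum_nat_add (fun j => |T n j|)).const_mul _
    rw [mul_zero] at h1
    obtain ⟨J, hJ⟩ := eventually_atTop.mp (h1.eventually_le_const
      (show (0 : ℝ) < 1 / ((n : ℝ) + 1) by positivity))
    exact ⟨J, hJ J le_rfl⟩
  choose J hJ using hchoose
  let F : ℕ → E →L[ℝ] E := fun n => ∑ j ∈ Finset.range (J n), T n j • s j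
  let R : ℕ → E →L[ℝ] E := fun n => S n - F n
  have hR : ∀ n, ‖(R n).comp (R n)‖ ≤ 1 / ((n : ℝ) + 1) := fun n => (hsq n (J n)).trans (hJ n)
  let G : ℕ → E →L[ℝ] E := fun n => (S n).comp (S n) - (R n).comp (R n)
  have hG : ∀ n, G n = (F n).comp (S n) + (R n).comp (F n) := by
    intro n
    simp only [G, R]
    ext y
    simp only [sub_apply, add_apply, ContinuousLinearMap.comp_apply,
      map_sub]
    abel
  -- finite rank
  have hsfin : ∀ j, FiniteDimensional ℝ (LinearMap.range (s j : E →ₗ[ℝ] E)) := by
    intro j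
    have hfin : FiniteDimensional ℝ
        (Submodule.span ℝ (x '' (Finset.range (j + 1) : Set ℕ))) :=
      FiniteDimensional.span_of_finite ℝ ((Finset.finite_toSet _).image _)
    refine Submodule.finiteDimensional_of_le
      (S₂ := Submodule.span ℝ (x '' (Finset.range (j + 1) : Set ℕ))) ?_
    rintro _ ⟨y, rfl⟩
    show s j y ∈ _
    rw [hs_apply]
    unfold ps
    exact Submodule.sum_mem _ (fun i hi => Submodule.smul_mem _ _
      (Submodule.subset_span ⟨i, by exact_mod_cast hi, rfl⟩))
  have hFfin : ∀ n, ∃ W : Submodule ℝ E, FiniteDimensional ℝ W ∧ ∀ y, F n y ∈ W := by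
    intro n
    refine ⟨Submodule.span ℝ (x '' (Finset.range (J n) : Set ℕ)),
      FiniteDimensional.span_of_finite ℝ ((Finset.finite_toSet _).image _), fun y => ?_⟩
    show (∑ j ∈ Finset.range (J n), T n j • s j) y ∈ _
    rw [hFF]
    unfold FF
    refine Submodule.sum_mem _ (fun j hj => Submodule.smul_mem _ _ ?_)
    unfold ps
    refine Submodule.sum_mem _ (fun i hi => Submodule.smul_mem _ _
      (Submodule.subset_span ⟨i, ?_, rfl⟩))
    simp at hi hj ⊢
    omega
  refine bap_of_seq G (|C| * |C| + 1) (fun n => ?_) (fun n => ?_) (fun y => ?_)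
  · obtain ⟨W, hW, hFW⟩ := hFfin n
    have hWm : FiniteDimensional ℝ (W.map (R n : E →ₗ[ℝ] E)) := inferInstance
    refine Submodule.finiteDimensional_of_le (S₂ := W ⊔ W.map (R n : E →ₗ[ℝ] E)) ?_
    rintro _ ⟨y, rfl⟩
    show G n y ∈ _
    rw [hG]
    exact Submodule.add_mem_sup (hFW _) ⟨F n y, hFW y, rfl⟩
  · have h1 : ‖(S n).comp (S n)‖ ≤ |C| * |C| :=
      ((S n).opNorm_comp_le (S n)).trans (mul_le_mul (hSn n) (hSn n) (norm_nonneg _) hC0)
    have h2 : 1 / ((n : ℝ) + 1) ≤ 1 := by
      rw [div_le_one (by positivity)]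
      have : (0 : ℝ) ≤ n := Nat.cast_nonneg n
      linarith
    exact (norm_sub_le _ _).trans (add_le_add h1 ((hR n).trans h2))
  · have h1 : Tendsto (fun n => S n (S n y)) atTop (𝓝 y) := by
      have h3 : Tendsto (fun n => S n y + S n (S n y - y)) atTop (𝓝 (y + 0)) := by
        refine (sg_lim hx y).add ?_
        refine squeeze_zero_norm (fun n => (S n).le_of_opNorm_le (hSn n) _) ?_
        have h4 : Tendsto (fun n => ‖S n y - y‖) atTop (𝓝 0) :=
          tendsto_iff_norm_sub_tendsto_zero.mp (sg_lim hx y)
        simpa using h4.const_mul |C|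
      rw [add_zero] at h3
      refine h3.congr (fun n => ?_)
      rw [map_sub]
      abel
    have h2 : Tendsto (fun n => (R n).comp (R n) y) atTop (𝓝 0) := by
      refine squeeze_zero_norm (fun n => ((R n).comp (R n)).le_of_opNorm_le (hR n) y) ?_
      have h3 : Tendsto (fun n : ℕ => 1 / ((n : ℝ) + 1)) atTop (𝓝 0) :=
        tendsto_one_div_add_atTop_nhds_zero_nat
      simpa using h3.mul_const ‖y‖
    have h3 := h1.sub h2
    rw [sub_zero] at h3
    exact h3

end Pool.Agent.Helper623.TB.Gen
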