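import Mathlib
set_option autoImplicit false
open scoped Topology
open Filter

namespace Pool.Agent.Helper623.TB

variable {E : Type} [NormedAddCommGroup E] [NormedSpace ℝ E]

/-- Approximation step: a finite seminorm on a Banach space is bounded by a multiple of the norm
on a dense set of approximations. -/
lemma zab_step [CompleteSpace E] (q : E → ℝ) (h0 : q 0 = 0)
    (hadd : ∀ y z, q (y + z) ≤ q y + q z)
    (hsmul : ∀ (c : ℝ) y, q (c • y) = |c| * q y) :
    ∃ c : ℝ, 0 ≤ c ∧ ∀ (y : E) (ε : ℝ), 0 < ε → ∃ y', ‖y - y'‖ < ε ∧ q y' ≤ c * ‖y‖ := by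
  have hneg : ∀ y, q (-y) = q y := fun y => by
    have := hsmul (-1) y
    simpa using this
  have hU : (⋃ N : ℕ, closure {y : E | q y ≤ N}) = Set.univ := by
    rw [Set.eq_univ_iff_forall]
    intro y
    obtain ⟨N, hN⟩ := exists_nat_ge (q y)
    exact Set.mem_iUnion.mpr ⟨N, subset_closure hN⟩
  obtain ⟨N, y0, hy0⟩ := nonempty_interior_of_iUnion_of_closed (fun N => isClosed_closure) hU
  obtain ⟨r, hr, hball⟩ := Metric.isOpen_iff.mp isOpen_interior y0 hy0
  have hball' : Metric.ball y0 r ⊆ closure {y : E | q y ≤ N} := hball.trans interior_subset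
  have hN0 : (0 : ℝ) ≤ N := Nat.cast_nonneg N
  refine ⟨4 * N / r, by positivity, fun y ε hε => ?_⟩
  by_cases hy : y = 0
  · subst hy
    exact ⟨0, by simpa using hε, by rw [h0]; simp⟩
  have hny : 0 < ‖y‖ := norm_pos_iff.mpr hy
  set a : ℝ := 2 * ‖y‖ / r with ha
  have ha0 : 0 < a := by positivity
  set z : E := a⁻¹ • y with hz
  have hznorm : ‖z‖ < r := by
    rw [hz, norm_smul, Real.norm_eq_abs, abs_of_pos (inv_pos.mpr ha0), ha]
    rw [inv_div, div_mul_eq_mul_div, div_lt_iff₀ (by positivity)]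
    nlinarith
  have h1 : y0 + z ∈ closure {y : E | q y ≤ N} := by
    apply hball'
    rw [Metric.mem_ball, dist_eq_norm]
    simpa using hznorm
  have h2 : y0 ∈ closure {y : E | q y ≤ N} := hball' (Metric.mem_ball_self hr)
  have hδ : 0 < ε / (2 * a) := by positivity
  obtain ⟨u, hu, hu'⟩ := Metric.mem_closure_iff.mp h1 _ hδ
  obtain ⟨v, hv, hv'⟩ := Metric.mem_closure_iff.mp h2 _ hδ
  refine ⟨a • (u - v), ?_, ?_⟩
  · have e1 : y = a • z := by
      rw [hz, smul_smul, mul_inv_cancel₀ ha0.ne', one_smul]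
    have e2 : y - a • (u - v) = a • ((y0 + z - u) - (y0 - v)) := by
      rw [e1]
      rw [← smul_sub]
      congr 1
      abel
    rw [e2, norm_smul, Real.norm_eq_abs, abs_of_pos ha0]
    rw [dist_eq_norm] at hu' hv'
    have e3 := norm_sub_le (y0 + z - u) (y0 - v)
    have e4 : a * ‖y0 + z - u - (y0 - v)‖ < a * (ε / (2 * a) + ε / (2 * a)) :=
      mul_lt_mul_of_pos_left (by linarith) ha0
    have e5 : a * (ε / (2 * a) + ε / (2 * a)) = ε := by
      field_simp; norm_num
    linarith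
  · rw [hsmul, abs_of_pos ha0, sub_eq_add_neg]
    have e1 := hadd u (-v)
    rw [hneg] at e1
    have hu2 : q u ≤ N := hu
    have hv2 : q v ≤ N := hv
    calc a * q (u + -v) ≤ a * (N + N) := mul_le_mul_of_nonneg_left (by linarith) ha0.le
      _ = 4 * N / r * ‖y‖ := by rw [ha]; field_simp; ring

/-- Zabreiko's lemma for an increasing sequence of seminorms. -/
theorem zabreiko [CompleteSpace E] (q : ℕ → E → ℝ) (h0 : ∀ k, q k 0 = 0)
    (hnn : ∀ k y, 0 ≤ q k y)
    (hadd : ∀ k y z, q k (y + z) ≤ q k y + q k z)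
    (hsmul : ∀ k (c : ℝ) y, q k (c • y) = |c| * q k y)
    (hmono : ∀ k l y, k ≤ l → q k y ≤ q l y)
    (hsub : ∀ u : ℕ → E, Summable (fun m => ‖u m‖) → (∀ k, Summable (fun m => q k (u m))) →
      ∀ k, q k (∑' m, u m) ≤ ∑' m, q k (u m)) (k : ℕ) :
    ∃ C : ℝ, ∀ y, q k y ≤ C * ‖y‖ := by
  choose c hc0 hc using fun k => zab_step (q k) (h0 k) (hadd k) (hsmul k)
  refine ⟨c k + 2, fun y => ?_⟩
  by_cases hy : y = 0
  · subst hy; rw [h0]; simp
  have hny : 0 < ‖y‖ := norm_pos_iff.mpr hy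
  -- tolerances
  let ε : ℕ → ℝ := fun m => min ((1 / 2) ^ m) ((1 / 2) ^ m * ‖y‖ / (c (k + m + 1) + 1))
  have hε : ∀ m, 0 < ε m := fun m => by
    have := hc0 (k + m + 1)
    exact lt_min (by positivity) (by positivity)
  choose app happ1 happ2 using fun (m : ℕ) (z : E) => hc (k + m) z (ε m) (hε m)
  -- residuals
  let res : ℕ → E := fun m => Nat.rec y (fun m r => r - app m r) m
  have hres0 : res 0 = y := rfl
  have hresS : ∀ m, res (m + 1) = res m - app m (res m) := fun m => rfl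
  set u : ℕ → E := fun m => app m (res m) with hu
  have hrn : ∀ m, ‖res (m + 1)‖ < ε m := fun m => happ1 m (res m)
  have hrn' : ∀ m, ‖res (m + 1)‖ ≤ (1 / 2) ^ m := fun m => (hrn m).le.trans (min_le_left _ _)
  have hun : ∀ m, ‖u (m + 1)‖ ≤ 2 * (1 / 2) ^ m := by
    intro m
    have e1 : u (m + 1) = res (m + 1) - res (m + 1 + 1) := by
      rw [hresS (m + 1)]; simp [hu]
    rw [e1]
    have e2 := norm_sub_le (res (m + 1)) (res (m + 1 + 1))
    have e3 := hrn' m
    have e4 := hrn' (m + 1)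
    have e5 : ((1 : ℝ) / 2) ^ (m + 1) ≤ (1 / 2) ^ m := by
      rw [pow_succ]
      have : (0 : ℝ) ≤ (1 / 2) ^ m := by positivity
      linarith
    linarith
  have hgeo : Summable (fun m : ℕ => ((1 : ℝ) / 2) ^ m) := summable_geometric_two
  have hsu : Summable (fun m => ‖u m‖) := by
    rw [← summable_nat_add_iff 1]
    exact Summable.of_nonneg_of_le (fun _ => norm_nonneg _) hun (hgeo.mul_left 2)
  -- sum of u is y
  have hpart : ∀ m, ∑ i ∈ Finset.range m, u i = y - res m := by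
    intro m
    induction m with
    | zero => simp [hres0]
    | succ m ih =>
      rw [Finset.sum_range_succ, ih, hresS]
      show y - res m + app m (res m) = y - (res m - app m (res m))
      abel
  have hres_lim : Tendsto res atTop (𝓝 0) := by
    rw [← tendsto_add_atTop_iff_nat 1]
    refine squeeze_zero_norm hrn' ?_
    exact tendsto_pow_atTop_nhds_zero_of_lt_one (by norm_num) (by norm_num)
  have hsumu : ∑' m, u m = y := by
    have h1 : HasSum u (∑' m, u m) := (Summable.of_norm hsu).hasSum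
    have h2 := h1.tendsto_sum_nat
    have h3 : Tendsto (fun m => y - res m) atTop (𝓝 (y - 0)) := tendsto_const_nhds.sub hres_lim
    rw [sub_zero] at h3
    refine tendsto_nhds_unique h2 (h3.congr (fun m => (hpart m).symm))
  -- seminorm estimates
  have hq : ∀ m, q (k + (m + 1)) (u (m + 1)) ≤ (1 / 2) ^ m * ‖y‖ := by
    intro m
    have e1 : q (k + (m + 1)) (u (m + 1)) ≤ c (k + (m + 1)) * ‖res (m + 1)‖ := happ2 (m + 1) _
    have e2 : ‖res (m + 1)‖ ≤ (1 / 2) ^ m * ‖y‖ / (c (k + m + 1) + 1) :=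
      (hrn m).le.trans (min_le_right _ _)
    have e3 : c (k + (m + 1)) = c (k + m + 1) := by rw [add_assoc]
    have hc1 := hc0 (k + m + 1)
    rw [e3] at e1
    refine e1.trans ((mul_le_mul_of_nonneg_left e2 hc1).trans ?_)
    rw [mul_div_assoc', div_le_iff₀ (by positivity)]
    have : 0 ≤ ((1 : ℝ) / 2) ^ m * ‖y‖ := by positivity
    nlinarith
  have hsumq : ∀ l, Summable (fun m => q l (u m)) := by
    intro l
    rw [← summable_nat_add_iff (l + 1)]
    refine Summable.of_nonneg_of_le (fun _ => hnn _ _) (fun m => ?_)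
      ((hgeo.mul_right ‖y‖))
    have e1 := hmono l (k + (m + l + 1)) (u (m + l + 1)) (by omega)
    have e2 := hq (m + l)
    have e3 : ((1 : ℝ) / 2) ^ (m + l) * ‖y‖ ≤ (1 / 2) ^ m * ‖y‖ := by
      refine mul_le_mul_of_nonneg_right ?_ hny.le
      exact pow_le_pow_of_le_one (by norm_num) (by norm_num) (by omega)
    exact e1.trans (e2.trans e3)
  have hfin := hsub u hsu hsumq k
  rw [hsumu] at hfin
  refine hfin.trans ?_
  rw [(hsumq k).tsum_eq_zero_add]
  have e0 : q k (u 0) ≤ c k * ‖y‖ := happ2 0 y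
  have e1 : ∑' m, q k (u (m + 1)) ≤ ∑' m : ℕ, (1 / 2) ^ m * ‖y‖ := by
    refine Summable.tsum_le_tsum (fun m => ?_) ((summable_nat_add_iff 1).mpr (hsumq k))
      (hgeo.mul_right _)
    exact (hmono k (k + (m + 1)) _ (by omega)).trans (hq m)
  have e2 : ∑' m : ℕ, ((1 : ℝ) / 2) ^ m * ‖y‖ = 2 * ‖y‖ := by
    rw [tsum_mul_right, tsum_geometric_two]
  rw [e2] at e1
  linarith

end Pool.Agent.Helper623.TB
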