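import Pool.Agent.Helper623.TB.TBasis
import Pool.Agent.Helper623.TB.Zab
set_option autoImplicit false
open scoped Topology
open Filter

namespace Pool.Agent.Helper623.TB.Gen

variable {E : Type} [NormedAddCommGroup E] [NormedSpace ℝ E]
variable {T : ℕ → ℕ → ℝ} {x : ℕ → E}

/-- partial sums `∑_{i ≤ j} α i • x i` -/
noncomputable def ps (x : ℕ → E) (α : ℕ → ℝ) (j : ℕ) : E := ∑ i ∈ Finset.range (j + 1), α i • x i

/-- the partial sums of the `n`-th mean -/
noncomputable def FF (T : ℕ → ℕ → ℝ) (x : ℕ → E) (n J : ℕ) (α : ℕ → ℝ) : E :=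
  ∑ j ∈ Finset.range J, T n j • ps x α j

lemma ps_add (α β : ℕ → ℝ) (j : ℕ) : ps x (α + β) j = ps x α j + ps x β j := by
  unfold ps
  rw [← Finset.sum_add_distrib]
  exact Finset.sum_congr rfl (fun i _ => by rw [Pi.add_apply, add_smul])

lemma ps_smul (c : ℝ) (α : ℕ → ℝ) (j : ℕ) : ps x (c • α) j = c • ps x α j := by
  unfold ps
  rw [Finset.smul_sum]
  exact Finset.sum_congr rfl (fun i _ => by rw [Pi.smul_apply, smul_eq_mul, mul_smul])

lemma FF_add (n J : ℕ) (α β : ℕ → ℝ) : FF T x n J (α + β) = FF T x n J α + FF T x n J β := by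
  unfold FF
  rw [← Finset.sum_add_distrib]
  exact Finset.sum_congr rfl (fun i _ => by rw [ps_add, smul_add])

lemma FF_smul (n J : ℕ) (c : ℝ) (α : ℕ → ℝ) : FF T x n J (c • α) = c • FF T x n J α := by
  unfold FF
  rw [Finset.smul_sum]
  exact Finset.sum_congr rfl (fun i _ => by rw [ps_smul, smul_comm])

lemma isMeans_iff (α : ℕ → ℝ) (σ : ℕ → E) :
    IsMeans T x α σ ↔ ∀ n, Tendsto (fun J => FF T x n J α) atTop (𝓝 (σ n)) := Iff.rfl

/-- the coefficient sequence -/
noncomputable def co (hx : IsTBasis T x) (y : E) : ℕ → ℝ := Classical.choose (hx y)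

lemma co_ex (hx : IsTBasis T x) (y : E) :
    ∃ σ : ℕ → E, IsMeans T x (co hx y) σ ∧ Tendsto σ atTop (𝓝 y) :=
  (Classical.choose_spec (hx y)).1

noncomputable def sg (hx : IsTBasis T x) (y : E) : ℕ → E := Classical.choose (co_ex hx y)

lemma sg_mean (hx : IsTBasis T x) (y : E) (n : ℕ) :
    Tendsto (fun J => FF T x n J (co hx y)) atTop (𝓝 (sg hx y n)) :=
  (Classical.choose_spec (co_ex hx y)).1 n

lemma sg_lim (hx : IsTBasis T x) (y : E) : Tendsto (sg hx y) atTop (𝓝 y) :=
  (Classical.choose_spec (co_ex hx y)).2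

lemma co_unique (hx : IsTBasis T x) (y : E) (α : ℕ → ℝ) (σ : ℕ → E)
    (h1 : ∀ n, Tendsto (fun J => FF T x n J α) atTop (𝓝 (σ n)))
    (h2 : Tendsto σ atTop (𝓝 y)) : co hx y = α :=
  ((Classical.choose_spec (hx y)).2 α ⟨σ, h1, h2⟩).symm

lemma co_add (hx : IsTBasis T x) (y z : E) : co hx (y + z) = co hx y + co hx z := by
  refine co_unique hx _ _ (fun n => sg hx y n + sg hx z n) (fun n => ?_)
    ((sg_lim hx y).add (sg_lim hx z))
  refine ((sg_mean hx y n).add (sg_mean hx z n)).congr (fun J => ?_)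
  rw [FF_add]

lemma co_smul (hx : IsTBasis T x) (c : ℝ) (y : E) : co hx (c • y) = c • co hx y := by
  refine co_unique hx _ _ (fun n => c • sg hx y n) (fun n => ?_) ((sg_lim hx y).const_smul c)
  refine ((sg_mean hx y n).const_smul c).congr (fun J => ?_)
  rw [FF_smul]

lemma sg_add (hx : IsTBasis T x) (y z : E) (n : ℕ) : sg hx (y + z) n = sg hx y n + sg hx z n := by
  refine tendsto_nhds_unique (sg_mean hx (y + z) n) ?_
  refine ((sg_mean hx y n).add (sg_mean hx z n)).congr (fun J => ?_)
  rw [co_add, FF_add]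

lemma sg_smul (hx : IsTBasis T x) (c : ℝ) (y : E) (n : ℕ) : sg hx (c • y) n = c • sg hx y n := by
  refine tendsto_nhds_unique (sg_mean hx (c • y) n) ?_
  refine ((sg_mean hx y n).const_smul c).congr (fun J => ?_)
  rw [co_smul, FF_smul]

lemma co_zero (hx : IsTBasis T x) : co hx 0 = 0 := by
  have := co_smul hx 0 0
  simpa using this

lemma sg_zero (hx : IsTBasis T x) (n : ℕ) : sg hx 0 n = 0 := by
  have := sg_smul hx 0 0 n
  simpa using this

/-! ### finitely supported coefficient sequences -/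

/-- for a finitely supported sequence the partial sums are eventually constant -/
lemma ps_fin (α : ℕ → ℝ) (m : ℕ) (h : ∀ i, m < i → α i = 0) (j : ℕ) (hj : m ≤ j) :
    ps x α j = ps x α m := by
  unfold ps
  symm
  refine Finset.sum_subset (by intro a ha; simp at ha ⊢; omega) (fun i _ hi => ?_)
  rw [h i (by simpa using hi), zero_smul]

/-- tail sums of rows -/
noncomputable def tau (T : ℕ → ℕ → ℝ) (n i : ℕ) : ℝ := ∑' j, T n j - ∑ j ∈ Finset.range i, T n j

lemma summ (hT : IsConsistent T) (n : ℕ) : Summable (T n) := by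
  obtain ⟨M, hM⟩ := hT.bounded
  exact (hM n).1.of_abs

lemma tendsto_tau (hT : IsConsistent T) (i : ℕ) : Tendsto (fun n => tau T n i) atTop (𝓝 1) := by
  unfold tau
  have h1 : Tendsto (fun n => ∑ j ∈ Finset.range i, T n j) atTop (𝓝 (∑ j ∈ Finset.range i, (0:ℝ))) :=
    tendsto_finsetSum _ (fun j _ => hT.col j)
  have h2 := hT.row.sub h1
  simpa using h2

/-- means of a finitely supported sequence -/
lemma fin_means (hT : IsConsistent T) (α : ℕ → ℝ) (m : ℕ) (h : ∀ i, m < i → α i = 0) :
    ∃ σ : ℕ → E, (∀ n, Tendsto (fun J => FF T x n J α) atTop (𝓝 (σ n))) ∧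
      Tendsto σ atTop (𝓝 (ps x α m)) := by
  refine ⟨fun n => FF T x n m α + tau T n m • ps x α m, fun n => ?_, ?_⟩
  · have h1 : ∀ J, m ≤ J → FF T x n J α =
        FF T x n m α + (∑ j ∈ Finset.range J, T n j - ∑ j ∈ Finset.range m, T n j) • ps x α m := by
      intro J hJ
      unfold FF
      rw [← Finset.sum_range_add_sum_Ico (fun j => T n j • ps x α j) hJ,
        ← Finset.sum_range_add_sum_Ico (fun j => T n j) hJ, add_sub_cancel_left, Finset.sum_smul]
      congr 1
      refine Finset.sum_congr rfl (fun j hj => ?_)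
      rw [ps_fin α m h j (Finset.mem_Ico.mp hj).1]
    have h2 : Tendsto (fun J => FF T x n m α +
        (∑ j ∈ Finset.range J, T n j - ∑ j ∈ Finset.range m, T n j) • ps x α m) atTop
        (𝓝 (FF T x n m α + tau T n m • ps x α m)) := by
      refine tendsto_const_nhds.add (Tendsto.smul_const ?_ _)
      exact ((summ hT n).hasSum.tendsto_sum_nat).sub_const _
    refine h2.congr' ?_
    filter_upwards [eventually_ge_atTop m] with J hJ
    rw [h1 J hJ]
  · have h1 : Tendsto (fun n => FF T x n m α) atTop (𝓝 (∑ j ∈ Finset.range m, (0:ℝ) • ps x α j)) := by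
      unfold FF
      exact tendsto_finsetSum _ (fun j _ => (hT.col j).smul_const _)
    have h2 := h1.add ((tendsto_tau hT m).smul_const (ps x α m))
    simpa using h2

lemma co_fin (hT : IsConsistent T) (hx : IsTBasis T x) (α : ℕ → ℝ) (m : ℕ)
    (h : ∀ i, m < i → α i = 0) : co hx (ps x α m) = α := by
  obtain ⟨σ, h1, h2⟩ := fin_means (x := x) hT α m h
  exact co_unique hx _ α σ h1 h2

lemma indep (hT : IsConsistent T) (hx : IsTBasis T x) : LinearIndependent ℝ x := by
  rw [linearIndependent_iff']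
  intro s g hg i hi
  classical
  set β : ℕ → ℝ := fun j => if j ∈ s then g j else 0 with hβ
  set m := s.sup id with hm
  have hle : ∀ j ∈ s, j ≤ m := fun j hj => Finset.le_sup (f := id) hj
  have h0 : ∀ i, m < i → β i = 0 := by
    intro i hi
    have : i ∉ s := fun h => by have := hle i h; omega
    simp [hβ, this]
  have h1 : ps x β m = 0 := by
    unfold ps
    rw [← hg]
    have e2 : ∑ j ∈ s, g j • x j = ∑ j ∈ s, β j • x j :=
      Finset.sum_congr rfl (fun j hj => by simp [hβ, hj])
    rw [e2]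
    symm
    refine Finset.sum_subset (fun j hj => ?_) (fun j _ hj => ?_)
    · have := hle j hj
      simp; omega
    · simp [hβ, hj]
  have h2 := co_fin hT hx β m h0
  rw [h1, co_zero] at h2
  have h3 := congrFun h2 i
  simp [hβ, hi] at h3
  exact h3.symm

/-! ### the seminorms -/

/-- `p_n` -/
noncomputable def pn (hx : IsTBasis T x) (n : ℕ) (y : E) : ℝ := ⨆ J, ‖FF T x n J (co hx y)‖

/-- `p_∞` -/
noncomputable def pinf (hx : IsTBasis T x) (y : E) : ℝ := ⨆ n, ‖sg hx y n‖

lemma pn_bdd (hx : IsTBasis T x) (n : ℕ) (y : E) :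
    BddAbove (Set.range (fun J => ‖FF T x n J (co hx y)‖)) := (sg_mean hx y n).norm.bddAbove_range

lemma pinf_bdd (hx : IsTBasis T x) (y : E) :
    BddAbove (Set.range (fun n => ‖sg hx y n‖)) := (sg_lim hx y).norm.bddAbove_range

lemma le_pn (hx : IsTBasis T x) (n : ℕ) (y : E) (J : ℕ) : ‖FF T x n J (co hx y)‖ ≤ pn hx n y :=
  le_ciSup (pn_bdd hx n y) J

lemma le_pinf (hx : IsTBasis T x) (y : E) (n : ℕ) : ‖sg hx y n‖ ≤ pinf hx y :=
  le_ciSup (pinf_bdd hx y) n

lemma pn_nonneg (hx : IsTBasis T x) (n : ℕ) (y : E) : 0 ≤ pn hx n y :=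
  (norm_nonneg _).trans (le_pn hx n y 0)

lemma pinf_nonneg (hx : IsTBasis T x) (y : E) : 0 ≤ pinf hx y :=
  (norm_nonneg _).trans (le_pinf hx y 0)

lemma pn_add (hx : IsTBasis T x) (n : ℕ) (y z : E) : pn hx n (y + z) ≤ pn hx n y + pn hx n z := by
  refine ciSup_le (fun J => ?_)
  rw [co_add, FF_add]
  exact (norm_add_le _ _).trans (add_le_add (le_pn hx n y J) (le_pn hx n z J))

lemma pinf_add (hx : IsTBasis T x) (y z : E) : pinf hx (y + z) ≤ pinf hx y + pinf hx z := by
  refine ciSup_le (fun n => ?_)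
  rw [sg_add]
  exact (norm_add_le _ _).trans (add_le_add (le_pinf hx y n) (le_pinf hx z n))

lemma pn_smul (hx : IsTBasis T x) (n : ℕ) (c : ℝ) (y : E) : pn hx n (c • y) = |c| * pn hx n y := by
  unfold pn
  rw [Real.mul_iSup_of_nonneg (abs_nonneg c)]
  congr 1
  funext J
  rw [co_smul, FF_smul, norm_smul, Real.norm_eq_abs]

lemma pinf_smul (hx : IsTBasis T x) (c : ℝ) (y : E) : pinf hx (c • y) = |c| * pinf hx y := by
  unfold pinf
  rw [Real.mul_iSup_of_nonneg (abs_nonneg c)]
  congr 1
  funext n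
  rw [sg_smul, norm_smul, Real.norm_eq_abs]

noncomputable def qq (hx : IsTBasis T x) (k : ℕ) (y : E) : ℝ :=
  pinf hx y + ∑ n ∈ Finset.range k, pn hx n y

/-- each coefficient is controlled by one of the seminorms -/
lemma co_le (hT : IsConsistent T) (hx : IsTBasis T x) (i : ℕ) :
    ∃ n : ℕ, ∃ K : ℝ, 0 ≤ K ∧ ∀ y, |co hx y i| ≤ K * pn hx n y := by
  -- find an active index `j ≥ i`
  obtain ⟨n, hn⟩ := ((tendsto_tau hT i).eventually_ne one_ne_zero).exists
  obtain ⟨j, hij, hj⟩ : ∃ j, i ≤ j ∧ T n j ≠ 0 := by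
    by_contra hcon
    push Not at hcon
    apply hn
    unfold tau
    rw [sub_eq_zero]
    exact tsum_eq_sum (fun j hj => hcon j (by simpa using hj))
  -- linear independence gives a bound of coordinates by the norm
  have hli := indep hT hx
  set L : (Fin (j + 1) → ℝ) →ₗ[ℝ] E :=
    Fintype.linearCombination ℝ (fun i : Fin (j + 1) => x i) with hL
  have hinj : Function.Injective L := by
    have h1 : LinearIndependent ℝ (fun i : Fin (j + 1) => x i) := hli.comp _ Fin.val_injective
    exact linearIndependent_iff_injective_fintypeLinearCombination.mp h1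
  obtain ⟨K, hK0, hK⟩ := L.exists_antilipschitzWith (LinearMap.ker_eq_bot.mpr hinj)
  have hLb : ∀ v : Fin (j + 1) → ℝ, ‖v‖ ≤ K * ‖L v‖ := fun v => by
    have := hK.le_mul_dist v 0
    simpa [dist_eq_norm] using this
  refine ⟨n, K * (2 / |T n j|), by positivity, fun y => ?_⟩
  have e1 : T n j • ps x (co hx y) j = FF T x n (j + 1) (co hx y) - FF T x n j (co hx y) := by
    unfold FF
    rw [Finset.sum_range_succ]; abel
  have e2 : |T n j| * ‖ps x (co hx y) j‖ ≤ 2 * pn hx n y := by
    rw [← Real.norm_eq_abs, ← norm_smul, e1]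
    have h1 := norm_sub_le (FF T x n (j + 1) (co hx y)) (FF T x n j (co hx y))
    have h2 := le_pn hx n y (j + 1)
    have h3 := le_pn hx n y j
    linarith
  have hTj : 0 < |T n j| := abs_pos.mpr hj
  have e3 : ‖ps x (co hx y) j‖ ≤ 2 / |T n j| * pn hx n y := by
    rw [div_mul_eq_mul_div, le_div_iff₀ hTj]
    linarith
  have e4 : L (fun i : Fin (j + 1) => co hx y i) = ps x (co hx y) j := by
    rw [hL, Fintype.linearCombination_apply]
    unfold ps
    rw [Finset.sum_range]
  have e5 := hLb (fun i : Fin (j + 1) => co hx y i)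
  rw [e4] at e5
  have e6 : |co hx y i| ≤ ‖(fun i : Fin (j + 1) => co hx y i)‖ :=
    norm_le_pi_norm (fun i : Fin (j + 1) => co hx y i) ⟨i, by omega⟩
  calc |co hx y i| ≤ K * ‖ps x (co hx y) j‖ := e6.trans e5
    _ ≤ K * (2 / |T n j| * pn hx n y) := mul_le_mul_of_nonneg_left e3 (by positivity)
    _ = K * (2 / |T n j|) * pn hx n y := by ring

/-- countable subadditivity -/
lemma sub_key [CompleteSpace E] (hT : IsConsistent T) (hx : IsTBasis T x) (u : ℕ → E)
    (_hu : Summable (fun m => ‖u m‖)) (hp : ∀ n, Summable (fun m => pn hx n (u m)))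
    (hinf : Summable (fun m => pinf hx (u m))) :
    (∀ n, pn hx n (∑' m, u m) ≤ ∑' m, pn hx n (u m)) ∧
      pinf hx (∑' m, u m) ≤ ∑' m, pinf hx (u m) := by
  have hco : ∀ i, Summable (fun m => co hx (u m) i) := by
    intro i
    obtain ⟨n, K, hK0, hK⟩ := co_le hT hx i
    refine Summable.of_norm_bounded ((hp n).mul_left K) (fun m => ?_)
    exact hK (u m)
  set α : ℕ → ℝ := fun i => ∑' m, co hx (u m) i with hα
  have hps : ∀ j, HasSum (fun m => ps x (co hx (u m)) j) (ps x α j) := by
    intro j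
    unfold ps
    exact hasSum_sum (fun i _ => (hco i).hasSum.smul_const _)
  have hFF : ∀ n J, HasSum (fun m => FF T x n J (co hx (u m))) (FF T x n J α) := by
    intro n J
    unfold FF
    exact hasSum_sum (fun j _ => (hps j).const_smul _)
  have hsg : ∀ n, Tendsto (fun J => FF T x n J α) atTop (𝓝 (∑' m, sg hx (u m) n)) := by
    intro n
    have h1 : (fun J => FF T x n J α) = fun J => ∑' m, FF T x n J (co hx (u m)) := by
      funext J
      rw [(hFF n J).tsum_eq]
    rw [h1]
    refine tendsto_tsum_of_dominated_convergence (hp n) (fun m => sg_mean hx (u m) n) ?_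
    exact Eventually.of_forall (fun J m => le_pn hx n (u m) J)
  have hlim : Tendsto (fun n => ∑' m, sg hx (u m) n) atTop (𝓝 (∑' m, u m)) := by
    refine tendsto_tsum_of_dominated_convergence hinf (fun m => sg_lim hx (u m)) ?_
    exact Eventually.of_forall (fun n m => le_pinf hx (u m) n)
  have hcoy : co hx (∑' m, u m) = α := co_unique hx _ α _ hsg hlim
  constructor
  · intro n
    refine ciSup_le (fun J => ?_)
    rw [hcoy, ← (hFF n J).tsum_eq]
    have h2 : Summable (fun m => ‖FF T x n J (co hx (u m))‖) :=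
      Summable.of_nonneg_of_le (fun _ => norm_nonneg _) (fun m => le_pn hx n (u m) J) (hp n)
    exact (norm_tsum_le_tsum_norm h2).trans
      (Summable.tsum_le_tsum (fun m => le_pn hx n (u m) J) h2 (hp n))
  · refine ciSup_le (fun n => ?_)
    have h1 : sg hx (∑' m, u m) n = ∑' m, sg hx (u m) n := by
      refine tendsto_nhds_unique (sg_mean hx (∑' m, u m) n) ?_
      rw [hcoy]
      exact hsg n
    rw [h1]
    have h2 : Summable (fun m => ‖sg hx (u m) n‖) :=
      Summable.of_nonneg_of_le (fun _ => norm_nonneg _) (fun m => le_pinf hx (u m) n) hinf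
    exact (norm_tsum_le_tsum_norm h2).trans
      (Summable.tsum_le_tsum (fun m => le_pinf hx (u m) n) h2 hinf)

/-- all seminorms are continuous -/
theorem bounds [CompleteSpace E] (hT : IsConsistent T) (hx : IsTBasis T x) :
    (∃ C : ℝ, ∀ y, pinf hx y ≤ C * ‖y‖) ∧ ∀ n, ∃ C : ℝ, ∀ y, pn hx n y ≤ C * ‖y‖ := by
  have hz : ∀ n, pn hx n 0 = 0 := fun n => by
    have := pn_smul hx n 0 0
    simpa using this
  have hz' : pinf hx 0 = 0 := by
    have := pinf_smul hx 0 0
    simpa using this
  have key : ∀ k, ∃ C : ℝ, ∀ y, qq hx k y ≤ C * ‖y‖ := by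
    intro k
    refine zabreiko (qq hx) ?_ ?_ ?_ ?_ ?_ ?_ k
    · intro k
      unfold qq
      simp [hz, hz']
    · intro k y
      exact add_nonneg (pinf_nonneg hx y) (Finset.sum_nonneg (fun n _ => pn_nonneg hx n y))
    · intro k y z
      unfold qq
      have h1 := pinf_add hx y z
      have h2 : ∑ n ∈ Finset.range k, pn hx n (y + z) ≤
          ∑ n ∈ Finset.range k, pn hx n y + ∑ n ∈ Finset.range k, pn hx n z := by
        rw [← Finset.sum_add_distrib]
        exact Finset.sum_le_sum (fun n _ => pn_add hx n y z)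
      linarith
    · intro k c y
      unfold qq
      rw [pinf_smul, mul_add, Finset.mul_sum]
      congr 1
      exact Finset.sum_congr rfl (fun n _ => pn_smul hx n c y)
    · intro k l y hkl
      unfold qq
      have : ∑ n ∈ Finset.range k, pn hx n y ≤ ∑ n ∈ Finset.range l, pn hx n y :=
        Finset.sum_le_sum_of_subset_of_nonneg (by intro a ha; simp at ha ⊢; omega)
          (fun n _ _ => pn_nonneg hx n y)
      linarith
    · intro u hu hq k
      have hinf : Summable (fun m => pinf hx (u m)) := by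
        have := hq 0
        simpa [qq] using this
      have hp : ∀ n, Summable (fun m => pn hx n (u m)) := by
        intro n
        refine Summable.of_nonneg_of_le (fun m => pn_nonneg hx n (u m)) (fun m => ?_) (hq (n + 1))
        unfold qq
        have h1 := pinf_nonneg hx (u m)
        have h2 : pn hx n (u m) ≤ ∑ n ∈ Finset.range (n + 1), pn hx n (u m) :=
          Finset.single_le_sum (f := fun n => pn hx n (u m)) (fun i _ => pn_nonneg hx i (u m))
            (by simp)
        linarith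
      obtain ⟨h1, h2⟩ := sub_key hT hx u hu hp hinf
      unfold qq
      have h3 : ∑' m, (pinf hx (u m) + ∑ n ∈ Finset.range k, pn hx n (u m)) =
          ∑' m, pinf hx (u m) + ∑ n ∈ Finset.range k, ∑' m, pn hx n (u m) := by
        rw [Summable.tsum_add hinf (summable_sum (fun n _ => hp n)),
          Summable.tsum_finsetSum (fun n _ => hp n)]
      rw [h3]
      exact add_le_add h2 (Finset.sum_le_sum (fun n _ => h1 n))
  refine ⟨?_, fun n => ?_⟩
  · obtain ⟨C, hC⟩ := key 0
    refine ⟨C, fun y => ?_⟩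
    have := hC y
    simpa [qq] using this
  · obtain ⟨C, hC⟩ := key (n + 1)
    refine ⟨C, fun y => le_trans ?_ (hC y)⟩
    unfold qq
    have h1 := pinf_nonneg hx y
    have h2 : pn hx n y ≤ ∑ n ∈ Finset.range (n + 1), pn hx n y :=
      Finset.single_le_sum (f := fun n => pn hx n y) (fun i _ => pn_nonneg hx i y)
        (by simp)
    linarith

end Pool.Agent.Helper623.TB.Gen
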